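import Pool.Agent.H29.UC.Pl

set_option autoImplicit false

/-! D3b: the vertex identity (helper29). -/

namespace Pool.Agent.H29.UC
open Pool.Agent.H7.UC Pool.Agent.H75.Perc

theorem bd_supp {U : Finset Fc} {ω : Finset Fc} (hω : ω ⊆ U) {e : Ed}
    (he : bd (↑ω : Set Fc) e ≠ 0) : inE U e := by
  unfold bd at he
  unfold inE
  by_contra hc
  push Not at hc
  rw [ind_not hω hc.1, ind_not hω hc.2] at he
  simp at he

theorem dv_bd (s : Set Fc) (w : Vx) : dv (bd s) w = 0 := by
  unfold dv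
  rw [bd_ed, bd_ed, bd_ed]
  have e1 : (0 : Fin 3) + 1 = 1 := rfl
  have e2 : (0 : Fin 3) + 2 = 2 := rfl
  have e3 : (1 : Fin 3) + 1 = 2 := rfl
  have e4 : (1 : Fin 3) + 2 = 0 := rfl
  have e5 : (2 : Fin 3) + 1 = 0 := rfl
  have e6 : (2 : Fin 3) + 2 = 1 := rfl
  rw [e1, e2, e3, e4, e5, e6]
  generalize ind s (fc w 0) = a
  generalize ind s (fc w 1) = b
  generalize ind s (fc w 2) = c
  revert a b c; decide

/-- adding the boundary of a set of faces of `U` -/
theorem isRef_add {U : Finset Fc} {M : Marks U 3} {v : Vx} {c : Ed → ZMod 2} (hc : IsRef M v c)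
    {ω : Finset Fc} (hω : ω ⊆ U) : IsRef M v (fun e => c e + bd (↑ω : Set Fc) e) where
  supp := by
    intro e he
    by_cases h : c e = 0
    · rw [h, zero_add] at he
      exact bd_supp hω he
    · exact hc.supp e h
  dv := by
    intro w
    have h : dv (fun e => c e + bd (↑ω : Set Fc) e) w = dv c w + dv (bd (↑ω : Set Fc)) w := by
      unfold Pool.Agent.H7.UC.dv; ring
    rw [h, dv_bd, add_zero]
    exact hc.dv w

theorem tau3 : tau ^ 3 = 1 := by
  unfold tau
  rw [← Complex.exp_nat_mul]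
  rw [Complex.exp_eq_one_iff]
  refine ⟨1, ?_⟩
  push_cast; ring

theorem tau_ne : tau ≠ 1 := by
  unfold tau
  rw [Ne, Complex.exp_eq_one_iff]
  rintro ⟨n, hn⟩
  have hpi : (2 * (Real.pi : ℂ) * Complex.I) ≠ 0 := Complex.two_pi_I_ne_zero
  have h : (1 : ℂ) / 3 = n := by
    have : (2 * (Real.pi : ℂ) * Complex.I) * (1 / 3) = (2 * (Real.pi : ℂ) * Complex.I) * n := by
      rw [mul_comm _ (n : ℂ), ← hn]; ring
    exact mul_left_cancel₀ hpi this
  have h2 : (1 : ℤ) = 3 * n := by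
    have : (1 : ℂ) = 3 * n := by rw [← h]; norm_num
    exact_mod_cast this
  omega

theorem tau_sum : 1 + tau + tau ^ 2 = 0 := by
  have h : (tau - 1) * (1 + tau + tau ^ 2) = 0 := by
    have := tau3; ring_nf; rw [this]; ring
  rcases mul_eq_zero.1 h with h | h
  · exact absurd (sub_eq_zero.1 h) tau_ne
  · exact h

theorem tau_rot (a : Fin 3) : ∑ k : Fin 3, tau ^ (k : ℕ) * tau ^ ((a + k : Fin 3) : ℕ) = 0 := by
  have h3 := tau3
  have hs := tau_sum
  fin_cases a
  · simp only [Fin.sum_univ_three]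
    show tau ^ 0 * tau ^ 0 + tau ^ 1 * tau ^ 1 + tau ^ 2 * tau ^ 2 = 0
    linear_combination hs + tau * h3
  · simp only [Fin.sum_univ_three]
    show tau ^ 0 * tau ^ 1 + tau ^ 1 * tau ^ 2 + tau ^ 2 * tau ^ 0 = 0
    linear_combination hs + h3
  · simp only [Fin.sum_univ_three]
    show tau ^ 0 * tau ^ 2 + tau ^ 1 * tau ^ 0 + tau ^ 2 * tau ^ 1 = 0
    linear_combination hs + h3

theorem fthird : ∀ a b : Fin 3, ∃ c, a ≠ c ∧ b ≠ c := by decide

open Classical in
/-- the vertex identity for one configuration -/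
theorem pointwise (hD1 : D1) {U : Finset Fc} (hU : IsDom U) {M : Marks U 3} {v : Vx}
    {x : Ed → ZMod 2} (hx : IsRef M v x) (hve : ∀ k, inE U (ed v k)) (hv : ∀ j, v ≠ M.u j) :
    ∑ k : Fin 3, tau ^ (k : ℕ) * ∑ j : Fin 3, tau ^ (j : ℕ) *
      (if SConn x v k (M.u j) then (1 : ℂ) else 0) = 0 := by
  -- if the three strands agree
  have hsame : ∀ Q : Fin 3 → Prop, (∀ k j, SConn x v k (M.u j) ↔ Q j) →
      ∑ k : Fin 3, tau ^ (k : ℕ) * ∑ j : Fin 3, tau ^ (j : ℕ) *
      (if SConn x v k (M.u j) then (1 : ℂ) else 0) = 0 := by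
    intro Q hQ
    simp only [hQ]
    rw [← Finset.sum_mul]
    have : ∑ k : Fin 3, tau ^ (k : ℕ) = 0 := by
      rw [Fin.sum_univ_three]
      have := tau_sum
      simpa using this
    rw [this, zero_mul]
  rcases ref_v hx hv with ⟨k0, h1, h0⟩ | h1
  · exact hsame (fun j => Conn (cut x v) (nb v k0) (M.u j)) fun k j =>
      sconn_one (hv j).symm h1 h0 k
  · by_cases hj : ∃ a b, a ≠ b ∧ Conn (cut x v) (nb v a) (nb v b)
    · obtain ⟨a, b, hab, hc⟩ := hj
      obtain ⟨c, hac, hbc⟩ := fthird a b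
      exact hsame (fun j => Conn (cut x v) (nb v c) (M.u j)) fun k j =>
        sconn_joined hx hv h1 hab hac hbc hc k j
    · push Not at hj
      obtain ⟨σ, hinj, hc, hS⟩ := legs hx hv h1 hj
      have key : ∀ k, σ k = σ 0 + k := by
        have h01 : σ 1 ≠ σ 0 := fun h => absurd (hinj h) (by decide)
        have h02 : σ 2 ≠ σ 0 := fun h => absurd (hinj h) (by decide)
        have h12 : σ 2 ≠ σ 1 := fun h => absurd (hinj h) (by decide)
        have hcw : σ 1 + 1 ≠ σ 0 := by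
          intro h
          exact no_clockwise hD1 hU hx hve hv h1 hj ((hc 0 (σ 0)).2 rfl) ((hc 1 (σ 1)).2 rfl)
            ((hc 2 (σ 2)).2 rfl) h h02 h12
        intro k
        have hgen : ∀ p q r : Fin 3, q ≠ p → r ≠ p → r ≠ q → q + 1 ≠ p → q = p + 1 ∧ r = p + 2 := by
          decide
        obtain ⟨e1, e2⟩ := hgen _ _ _ h01 h02 h12 hcw
        fin_cases k
        · exact (add_zero _).symm
        · exact e1
        · exact e2
      simp only [hS]
      refine Eq.trans (Finset.sum_congr rfl ?_) (tau_rot (σ 0))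
      intro k _
      congr 1
      rw [key k]
      simp

theorem d3b (hD1 : D1) : D3b := by
  classical
  intro U M hU v hve hv c hc
  have hX : ∀ k j, (X M c v k j : ℂ) = (∑ ω ∈ U.powerset,
      (if SConn (fun e => c e + bd (↑ω : Set Fc) e) v k (M.u j) then (1 : ℂ) else 0)) / 2 ^ U.card := by
    intro k j
    unfold X
    rw [Pr_eq]
    push_cast
    rw [Finset.card_filter]
    push_cast
    rfl
  unfold obs
  simp only [hX]
  have h1 : ∑ k : Fin 3, tau ^ (k : ℕ) * ∑ j : Fin 3, tau ^ (j : ℕ) * ((∑ ω ∈ U.powerset,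
      (if SConn (fun e => c e + bd (↑ω : Set Fc) e) v k (M.u j) then (1 : ℂ) else 0)) / 2 ^ U.card) =
      (∑ ω ∈ U.powerset, ∑ k : Fin 3, tau ^ (k : ℕ) * ∑ j : Fin 3, tau ^ (j : ℕ) *
      (if SConn (fun e => c e + bd (↑ω : Set Fc) e) v k (M.u j) then (1 : ℂ) else 0)) / 2 ^ U.card := by
    rw [Finset.sum_comm, Finset.sum_div]
    apply Finset.sum_congr rfl
    intro k _
    rw [← Finset.mul_sum, mul_div_assoc]
    congr 1
    rw [Finset.sum_comm, Finset.sum_div]
    apply Finset.sum_congr rfl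
    intro j _
    rw [← Finset.mul_sum, mul_div_assoc]
  rw [h1, Finset.sum_eq_zero, zero_div]
  intro ω hω
  exact pointwise hD1 hU (isRef_add hc (Finset.mem_powerset.1 hω)) hve hv

end Pool.Agent.H29.UC
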