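import Pool.Agent.H7.UC.Defs

set_option autoImplicit false

/-! Graph lemmas for chains of edges of the hexagonal lattice (helper29). -/

namespace Pool.Agent.H29.UC
open Pool.Agent.H7.UC

theorem z2 (a : ZMod 2) : a = 0 ∨ a = 1 := by revert a; decide

theorem z2_ne {a : ZMod 2} (h : a ≠ 0) : a = 1 := (z2 a).resolve_left h

theorem adjC_symm {x : Ed → ZMod 2} {v w : Vx} (h : AdjC x v w) : AdjC x w v := by
  obtain ⟨k, rfl, hk⟩ := h
  exact ⟨k, (nb_nb v k).symm, by rwa [ed_nb]⟩

theorem conn_symm {x : Ed → ZMod 2} {v w : Vx} (h : Conn x v w) : Conn x w v := by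
  induction h with
  | refl => exact .refl
  | tail _ h2 ih => exact Relation.ReflTransGen.head (adjC_symm h2) ih

theorem conn_trans {x : Ed → ZMod 2} {u v w : Vx} (h : Conn x u v) (h' : Conn x v w) :
    Conn x u w := Relation.ReflTransGen.trans h h'

theorem conn_mono {x y : Ed → ZMod 2} (hxy : ∀ e, x e = 1 → y e = 1) {v w : Vx}
    (h : Conn x v w) : Conn y v w := by
  induction h with
  | refl => exact .refl
  | tail _ h2 ih =>
    obtain ⟨k, rfl, hk⟩ := h2
    exact Relation.ReflTransGen.tail ih ⟨k, rfl, hxy _ hk⟩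

/-- the chain `x` without the edges at `v` -/
noncomputable def cut (x : Ed → ZMod 2) (v : Vx) : Ed → ZMod 2 := fun e => by
  classical exact if ∃ k, e = ed v k then 0 else x e

theorem cut_self (x : Ed → ZMod 2) (v : Vx) (k : Fin 3) : cut x v (ed v k) = 0 := by
  unfold cut; rw [if_pos ⟨k, rfl⟩]

theorem cut_nb (x : Ed → ZMod 2) (v : Vx) (k : Fin 3) : cut x v (ed (nb v k) k) = 0 := by
  rw [ed_nb]; exact cut_self x v k

theorem cut_ne {x : Ed → ZMod 2} {v w : Vx} {k : Fin 3} (h1 : w ≠ v) (h2 : nb w k ≠ v) :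
    cut x v (ed w k) = x (ed w k) := by
  unfold cut
  rw [if_neg]
  rintro ⟨l, hl⟩
  obtain ⟨_, h | h⟩ := (ed_eq_iff w v k l).1 hl
  · exact h1 h.symm
  · exact h2 h.symm

theorem cut_le {x : Ed → ZMod 2} {v : Vx} {e : Ed} (h : cut x v e = 1) : x e = 1 := by
  unfold cut at h
  split_ifs at h with hh
  · simp at h
  · exact h

theorem cut_ne_zero {x : Ed → ZMod 2} {v : Vx} {e : Ed} (h : cut x v e ≠ 0) : x e ≠ 0 := by
  rw [cut_le (z2_ne h)]; simp

/-- an isolated vertex is connected only to itself -/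
theorem conn_isol {x : Ed → ZMod 2} {v u : Vx} (h0 : ∀ k, x (ed v k) = 0) (h : Conn x v u) :
    u = v := by
  rcases Relation.ReflTransGen.cases_head h with h | ⟨w, ⟨k, rfl, hk⟩, _⟩
  · exact h.symm
  · rw [h0 k] at hk; simp at hk

theorem conn_cut_self {x : Ed → ZMod 2} {v u : Vx} (h : Conn (cut x v) v u) : u = v :=
  conn_isol (cut_self x v) h

/-- last exit from `v` -/
theorem conn_out {x : Ed → ZMod 2} {v u : Vx} (huv : u ≠ v) {w : Vx} (h : Conn x w u) :
    Conn (cut x v) w u ∨ (Conn x w v ∧ ∃ k, x (ed v k) = 1 ∧ Conn (cut x v) (nb v k) u) := by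
  induction h using Relation.ReflTransGen.head_induction_on with
  | refl => exact Or.inl .refl
  | @head w w2 h1 h2 ih =>
    rcases ih with ih | ih
    · obtain ⟨k, rfl, hk⟩ := h1
      by_cases hw : w = v
      · subst hw; exact Or.inr ⟨.refl, k, hk, ih⟩
      · by_cases hw2 : nb w k = v
        · rw [hw2] at ih
          exact absurd (conn_cut_self ih) huv
        · left
          exact Relation.ReflTransGen.head ⟨k, rfl, by rw [cut_ne hw hw2]; exact hk⟩ ih
    · exact Or.inr ⟨Relation.ReflTransGen.head h1 ih.1, ih.2⟩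

theorem conn_iff_out {x : Ed → ZMod 2} {v u : Vx} (huv : u ≠ v) :
    Conn x v u ↔ ∃ k, x (ed v k) = 1 ∧ Conn (cut x v) (nb v k) u := by
  constructor
  · intro h
    rcases conn_out huv h with h | h
    · exact absurd (conn_cut_self h) huv
    · exact h.2
  · rintro ⟨k, hk, h⟩
    exact Relation.ReflTransGen.head ⟨k, rfl, hk⟩ (conn_mono (fun e he => cut_le he) h)

theorem cut_ncard_lt {x : Ed → ZMod 2} (hf : {e | x e ≠ 0}.Finite) {v : Vx} {k : Fin 3}
    (hk : x (ed v k) = 1) : {e | cut x v e ≠ 0}.ncard < {e | x e ≠ 0}.ncard := by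
  apply Set.ncard_lt_ncard _ hf
  refine ⟨fun e he => cut_ne_zero he, fun h => ?_⟩
  have h1 : ed v k ∈ {e | x e ≠ 0} := by
    simp only [Set.mem_ofPred_eq]; rw [hk]; simp
  have h2 := h h1
  exact h2 (cut_self x v k)

theorem cut_finite {x : Ed → ZMod 2} (hf : {e | x e ≠ 0}.Finite) (v : Vx) :
    {e | cut x v e ≠ 0}.Finite :=
  hf.subset fun _ he => cut_ne_zero he

theorem fin3_third {k l m : Fin 3} (h1 : k ≠ l) (h2 : k ≠ m) (h3 : l ≠ m) (n : Fin 3) :
    n = k ∨ n = l ∨ n = m := by
  revert k l m n; decide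

/-- in a graph with all degrees at most two a component has at most two vertices of degree at
most one -/
theorem ends3 {y : Ed → ZMod 2} (hf : {e | y e ≠ 0}.Finite) (h2 : ∀ w, ∃ k, y (ed w k) = 0)
    {a b c : Vx} (ha : ∀ k l, y (ed a k) = 1 → y (ed a l) = 1 → k = l)
    (hb : ∀ k l, y (ed b k) = 1 → y (ed b l) = 1 → k = l)
    (hc : ∀ k l, y (ed c k) = 1 → y (ed c l) = 1 → k = l)
    (hab : Conn y a b) (hac : Conn y a c) : a = b ∨ a = c ∨ b = c := by
  induction hn : {e | y e ≠ 0}.ncard using Nat.strong_induction_on generalizing y a b c with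
  | _ n ih =>
  subst hn
  by_cases h1 : a = b
  · exact Or.inl h1
  by_cases h3 : a = c
  · exact Or.inr (Or.inl h3)
  obtain ⟨k, hk, hkb⟩ := (conn_iff_out (Ne.symm h1)).1 hab
  obtain ⟨k', hk', hkc⟩ := (conn_iff_out (Ne.symm h3)).1 hac
  obtain rfl := ha k k' hk hk'
  have hd : ∀ l m, cut y a (ed (nb a k) l) = 1 → cut y a (ed (nb a k) m) = 1 → l = m := by
    intro l m hl hm
    by_contra hlm
    have hlk : k ≠ l := by
      rintro rfl; rw [cut_nb] at hl; simp at hl
    have hmk : k ≠ m := by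
      rintro rfl; rw [cut_nb] at hm; simp at hm
    obtain ⟨q, hq⟩ := h2 (nb a k)
    rcases fin3_third hlk hmk hlm q with rfl | rfl | rfl
    · rw [ed_nb, hk] at hq; simp at hq
    · rw [cut_le hl] at hq; simp at hq
    · rw [cut_le hm] at hq; simp at hq
  have key := ih _ (cut_ncard_lt hf hk) (cut_finite hf a)
    (fun w => by
      obtain ⟨q, hq⟩ := h2 w
      refine ⟨q, ?_⟩
      by_contra hh
      exact cut_ne_zero hh hq)
    hd (fun l m hl hm => hb l m (cut_le hl) (cut_le hm))
    (fun l m hl hm => hc l m (cut_le hl) (cut_le hm)) hkb hkc rfl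
  -- if the second vertex of the path is an end, the path stops
  have hstop : ∀ d : Vx, (∀ k l, y (ed d k) = 1 → y (ed d l) = 1 → k = l) → nb a k = d →
      ∀ l, cut y a (ed d l) = 0 := by
    intro d hdd hde l
    by_contra hh
    have h5 : y (ed d l) = 1 := cut_le (z2_ne hh)
    have h6 : y (ed d k) = 1 := by rw [← hde, ed_nb]; exact hk
    obtain rfl := hdd _ _ h5 h6
    rw [← hde, cut_nb] at hh
    exact hh rfl
  rcases key with h | h | h
  · right; right
    have := conn_isol (hstop b hb h) (h ▸ hkc)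
    exact this.symm
  · right; right
    exact conn_isol (hstop c hc h) (h ▸ hkb)
  · exact Or.inr (Or.inr h)

/-- the component is finite -/
theorem conn_finite {y : Ed → ZMod 2} (hf : {e | y e ≠ 0}.Finite) (a : Vx) :
    {w | Conn y a w}.Finite := by
  have h1 : {w : Vx | ∃ k, y (ed w k) ≠ 0}.Finite := by
    apply ((hf.image (fun e : Ed => (e.1, e.2.1, false))).union
      (hf.image (fun e : Ed => nb (e.1, e.2.1, false) e.2.2))).subset
    rintro ⟨i, j, b⟩ ⟨k, hk⟩
    cases b
    · left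
      exact ⟨_, hk, by simp [ed]⟩
    · right
      refine ⟨_, hk, ?_⟩
      fin_cases k <;> simp [ed, nb]
  apply (h1.union (Set.finite_singleton a)).subset
  intro w hw
  rcases Relation.ReflTransGen.cases_tail hw with h | ⟨u, _, ⟨k, rfl, hk⟩⟩
  · exact Or.inr h
  · left
    refine ⟨k, ?_⟩
    rw [ed_nb, hk]; simp

/-- the degrees in a component add up to zero mod 2 -/
theorem sum_dv {y : Ed → ZMod 2} (A : Finset Vx)
    (hA : ∀ w ∈ A, ∀ k, y (ed w k) = 1 → nb w k ∈ A) : ∑ w ∈ A, dv y w = 0 := by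
  classical
  have h1 : ∑ w ∈ A, dv y w = ∑ p ∈ A ×ˢ (Finset.univ : Finset (Fin 3)), y (ed p.1 p.2) := by
    rw [Finset.sum_product]
    apply Finset.sum_congr rfl
    intro w _
    simp only [dv, Fin.sum_univ_three]
  rw [h1, ← Finset.sum_filter_ne_zero]
  apply Finset.sum_involution (fun p _ => (nb p.1 p.2, p.2))
  · intro p hp
    simp only [ed_nb]
    exact CharTwo.add_self_eq_zero _
  · intro p _ _ h
    exact nb_ne p.1 p.2 (congrArg Prod.fst h)
  · intro p hp
    rw [Finset.mem_filter, Finset.mem_product] at hp ⊢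
    refine ⟨⟨hA _ hp.1.1 _ (z2_ne hp.2), Finset.mem_univ _⟩, ?_⟩
    simp only [ed_nb]
    exact hp.2
  · intro p _
    simp only [nb_nb]

end Pool.Agent.H29.UC
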