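import Pool.Agent.H29.UC.Str
import Pool.Agent.H7.UC.Iface

set_option autoImplicit false

/-! Planarity of three legs (helper29). -/

namespace Pool.Agent.H29.UC
open Pool.Agent.H7.UC

theorem f12 (k : Fin 3) : k + 1 + 2 = k := by revert k; decide
theorem f11 (k : Fin 3) : k + 1 + 1 = k + 2 := by revert k; decide
theorem f22 (k : Fin 3) : k + 2 + 2 = k + 1 := by revert k; decide
theorem f21 (k : Fin 3) : k + 2 + 1 = k := by revert k; decide
theorem fsplit (k k' : Fin 3) : k ≠ k' → ∃ l, (k = l + 1 ∧ k' = l + 2) ∨ (k = l + 2 ∧ k' = l + 1) := by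
  revert k k'; decide
theorem fperm (a b c : Fin 3) : b + 1 = a → c ≠ a → c ≠ b →
    (a = 0 ∧ b = 2 ∧ c = 1) ∨ (a = 1 ∧ b = 0 ∧ c = 2) ∨ (a = 2 ∧ b = 1 ∧ c = 0) := by
  revert a b c; decide

/-- colour to the left of the directed edge leaving `w` through `ed w k` -/
noncomputable def Lc (U : Finset Fc) (s : Finset Fc) (C : Ed → ZMod 2) (w : Vx) (k : Fin 3) : ZMod 2 :=
  if fc w (k + 2) ∈ U then ind ↑s (fc w (k + 2)) else C (ed w k)
/-- colour to the right -/
noncomputable def Rc (U : Finset Fc) (s : Finset Fc) (C : Ed → ZMod 2) (w : Vx) (k : Fin 3) : ZMod 2 :=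
  if fc w (k + 1) ∈ U then ind ↑s (fc w (k + 1)) else C (ed w k)

variable {U s : Finset Fc} {C P : Ed → ZMod 2}

theorem Lc_nb (w : Vx) (k : Fin 3) : Lc U s C (nb w k) k = Rc U s C w k := by
  unfold Lc Rc; rw [fc_nb2, ed_nb]

theorem Rc_nb (w : Vx) (k : Fin 3) : Rc U s C (nb w k) k = Lc U s C w k := by
  unfold Lc Rc; rw [fc_nb1, ed_nb]

theorem bd_ed (s : Set Fc) (w : Vx) (k : Fin 3) :
    bd s (ed w k) = ind s (fc w (k + 1)) + ind s (fc w (k + 2)) := by
  unfold bd
  rcases faces_ed w k with ⟨_, h1, h2⟩ | ⟨_, h1, h2⟩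
  · rw [h1, h2]
  · rw [h1, h2, add_comm]

theorem ind_not {s : Finset Fc} (hs : s ⊆ U) {f : Fc} (hf : f ∉ U) : ind (↑s : Set Fc) f = 0 := by
  unfold ind; rw [if_neg]; exact fun h => hf (hs h)

theorem zadd {a b c : ZMod 2} (h : a + b = c) : b = c + a := by
  revert a b c; decide

theorem LR (hs : s ⊆ U) (hC : ∀ e, C e ≠ 0 → isB U e) (hP : ∀ e, P e + C e = bd ↑s e)
    {w : Vx} {k : Fin 3} (he : inE U (ed w k)) :
    Lc U s C w k + Rc U s C w k = P (ed w k) := by
  have h := hP (ed w k)
  rw [bd_ed] at h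
  rw [inE_ed] at he
  unfold Lc Rc
  by_cases h1 : fc w (k + 1) ∈ U <;> by_cases h2 : fc w (k + 2) ∈ U
  · rw [if_pos h1, if_pos h2]
    have hc : C (ed w k) = 0 := by
      by_contra hh
      have := isB_ed.1 (hC _ hh)
      tauto
    rw [hc] at h
    rw [add_zero] at h; rw [h, add_comm]
  · rw [if_pos h1, if_neg h2]
    rw [ind_not hs h2, add_zero] at h
    rw [← h]
    generalize P (ed w k) = p
    generalize C (ed w k) = c
    revert p c; decide
  · rw [if_neg h1, if_pos h2]
    rw [ind_not hs h1, zero_add] at h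
    rw [← h]
    generalize P (ed w k) = p
    generalize C (ed w k) = c
    revert p c; decide
  · tauto

/-- the two edges at the slot `k + 1` see the same colour there -/
theorem turn (hC : ∀ e, C e ≠ 0 → isB U e) {w : Vx} {k : Fin 3} (hw : dv C w = 0)
    (h1 : inE U (ed w k)) (h2 : inE U (ed w (k + 2))) :
    Rc U s C w k = Lc U s C w (k + 2) := by
  unfold Lc Rc
  have e1 := f22 k
  have e2 := f21 k
  have e3 := f11 k
  have e4 := f12 k
  rw [e1]
  by_cases h3 : fc w (k + 1) ∈ U
  · rw [if_pos h3, if_pos h3]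
  · rw [if_neg h3, if_neg h3]
    rw [inE_ed] at h1 h2
    rw [e1, e2] at h2
    have hc : C (ed w (k + 1)) = 0 := by
      by_contra hh
      have := isB_ed.1 (hC _ hh)
      rw [e3, e4] at this
      tauto
    rw [dv_third _ _ k, hc, add_zero] at hw
    revert hw
    generalize C (ed w k) = p
    generalize C (ed w (k + 2)) = q
    revert p q; decide

/-- turn at a vertex whose edge `l` is not in `P` -/
theorem turn2 (hs : s ⊆ U) (hC : ∀ e, C e ≠ 0 → isB U e) (hP : ∀ e, P e + C e = bd ↑s e)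
    {w : Vx} {l : Fin 3} (hw : dv C w = 0) (h0 : inE U (ed w l) → P (ed w l) = 0)
    (h1 : inE U (ed w (l + 1))) (h2 : inE U (ed w (l + 2))) :
    Rc U s C w (l + 1) = Lc U s C w (l + 2) := by
  have e1 := f12 l
  have e2 := f11 l
  have e3 := f22 l
  have e4 := f21 l
  by_cases h : inE U (ed w l)
  · have t1 := turn (s := s) hC (k := l + 1) hw h1 (by rw [e1]; exact h)
    rw [e1] at t1
    have t2 := turn (s := s) hC (k := l) hw h h2
    have t3 := LR hs hC hP h
    rw [h0 h] at t3
    rw [t1, ← t2]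
    revert t3
    generalize Lc U s C w l = p
    generalize Rc U s C w l = q
    revert p q; decide
  · rw [inE_ed] at h
    push Not at h
    unfold Lc Rc
    rw [e2, e3, if_neg h.1, if_neg h.2]
    have hc : C (ed w l) = 0 := by
      by_contra hh
      have := isB_ed.1 (hC _ hh)
      tauto
    rw [dv_third _ _ l, hc, zero_add] at hw
    revert hw
    generalize C (ed w (l + 1)) = p
    generalize C (ed w (l + 2)) = q
    revert p q; decide

/-- the colour to the left is conserved at a vertex of degree two of `P` -/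
theorem conserve (hs : s ⊆ U) (hC : ∀ e, C e ≠ 0 → isB U e) (hP : ∀ e, P e + C e = bd ↑s e)
    {w : Vx} {k k' : Fin 3} (hkk : k ≠ k') (hw : dv C w = 0)
    (h0 : ∀ l, l ≠ k → l ≠ k' → inE U (ed w l) → P (ed w l) = 0)
    (h1 : inE U (ed w k)) (h2 : inE U (ed w k')) :
    Rc U s C w k = Lc U s C w k' := by
  obtain ⟨l, hl⟩ := fsplit k k' hkk
  rcases hl with ⟨rfl, rfl⟩ | ⟨rfl, rfl⟩
  · exact turn2 hs hC hP hw (h0 l (by exact (add1_ne l).symm) (add2_ne l).symm) h1 h2
  · have e1 := f22 l
    have := turn (s := s) hC (k := l + 2) hw h1 (by rw [e1]; exact h2)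
    rw [e1] at this
    exact this

/-- a property of directed edges which is conserved is conserved along strands -/
theorem walk {Q : Vx → Fin 3 → Prop} {y : Ed → ZMod 2} (hf : {e | y e ≠ 0}.Finite) {v u : Vx}
    {k : Fin 3} (hQ : Q v k) (hk : y (ed v k) = 0) (hc : Conn y (nb v k) u)
    (hstep : ∀ w, Conn y (nb v k) w → w ≠ u → ∀ a b, a ≠ b → Q (nb w a) a → y (ed w b) = 1 → Q w b) :
    ∃ k', Q (nb u k') k' ∧ (y (ed u k') = 1 ∨ u = nb v k ∧ k' = k) := by
  induction hn : {e | y e ≠ 0}.ncard using Nat.strong_induction_on generalizing y v k with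
  | _ n ih =>
  subst hn
  by_cases hu : nb v k = u
  · subst hu
    refine ⟨k, ?_, Or.inr ⟨rfl, rfl⟩⟩
    rw [nb_nb]; exact hQ
  · obtain ⟨l, hl, hcl⟩ := (conn_iff_out (Ne.symm hu)).1 hc
    have hkl : k ≠ l := by
      rintro rfl
      rw [ed_nb, hk] at hl; simp at hl
    have hQ2 : Q (nb v k) l := hstep (nb v k) .refl hu k l hkl (by rw [nb_nb]; exact hQ) hl
    obtain ⟨k', hk1, hk2⟩ := ih _ (cut_ncard_lt hf hl) (cut_finite hf _) hQ2 (cut_self _ _ _) hcl
      (by
        intro w hw hwu a b hab hQa hyb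
        refine hstep w ?_ hwu a b hab hQa (cut_le hyb)
        exact Relation.ReflTransGen.head ⟨l, rfl, hl⟩ (conn_mono (fun e he => cut_le he) hw)) rfl
    refine ⟨k', hk1, Or.inl ?_⟩
    rcases hk2 with h | ⟨h, rfl⟩
    · exact cut_le h
    · rw [h, ed_nb]; exact hl

section pl

variable {M : Marks U 3} {v : Vx} {x : Ed → ZMod 2}

theorem ind_coe {A : Finset Ed} {e : Ed} : ind (↑A : Set Ed) e = 1 ↔ e ∈ A := by
  unfold ind; simp

theorem ind_coe0 {A : Finset Ed} {e : Ed} : ind (↑A : Set Ed) e = 0 ↔ e ∉ A := by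
  unfold ind; simp

/-- planarity: the three legs end in counterclockwise order (special form) -/
theorem no_clockwise (hD1 : D1) (hU : IsDom U) (hx : IsRef M v x) (hve : ∀ k, inE U (ed v k))
    (hv : ∀ j, v ≠ M.u j)
    (h1 : ∀ k, x (ed v k) = 1) (hn : ∀ a b, a ≠ b → ¬ Conn (cut x v) (nb v a) (nb v b))
    {a b c : Fin 3} (ha : Conn (cut x v) (nb v 0) (M.u a)) (hb : Conn (cut x v) (nb v 1) (M.u b))
    (hc : Conn (cut x v) (nb v 2) (M.u c)) (hba : b + 1 = a) (hca : c ≠ a) (hcb : c ≠ b) : False := by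
  classical
  have hab : a ≠ b := by
    rintro rfl
    exact add1_ne _ hba
  -- the arc
  set C : Ed → ZMod 2 := ind (↑(M.C b) : Set Ed) with hCdef
  have hCB : ∀ e, C e ≠ 0 → isB U e := by
    intro e he
    have := ind_coe.1 (z2_ne he)
    exact (M.mem e).2 ⟨b, this⟩
  have hdvC : ∀ w, dv C w = ind {M.u b} w + ind {M.u a} w := by
    intro w; rw [hCdef, M.dvC b w, hba]
  -- the path
  set A : Set Vx := {w | Conn (cut x v) (nb v 0) w ∨ Conn (cut x v) (nb v 1) w} with hA
  have hAv : v ∉ A := by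
    rintro (h | h)
    · exact nb_ne _ _ (conn_cut_self (conn_symm h))
    · exact nb_ne _ _ (conn_cut_self (conn_symm h))
  set P : Ed → ZMod 2 := fun e => if ∃ w ∈ A, ∃ l, e = ed w l then x e else 0 with hPdef
  have hPA : ∀ w ∈ A, ∀ l, P (ed w l) = x (ed w l) := by
    intro w hw l
    simp only [hPdef]
    rw [if_pos ⟨w, hw, l, rfl⟩]
  have hPv : P (ed v 2) = 0 := by
    simp only [hPdef]
    rw [if_neg]
    rintro ⟨w, hw, l, hl⟩
    obtain ⟨rfl, h | h⟩ := (ed_eq_iff v w 2 l).1 hl
    · rw [h] at hw; exact hAv hw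
    · rw [h] at hw
      rcases hw with hw | hw
      · exact hn 0 2 (by decide) hw
      · exact hn 1 2 (by decide) hw
  have hPv0 : P (ed v 0) = 1 := by
    have := hPA (nb v 0) (Or.inl .refl) 0
    rw [ed_nb, h1] at this; exact this
  have hPv1 : P (ed v 1) = 1 := by
    have := hPA (nb v 1) (Or.inr .refl) 1
    rw [ed_nb, h1] at this; exact this
  have hPoff : ∀ w, w ≠ v → w ∉ A → ∀ l, P (ed w l) = 0 := by
    intro w hwv hwA l
    simp only [hPdef]
    split_ifs with h
    · obtain ⟨w', hw', l', hl'⟩ := h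
      obtain ⟨rfl, h | h⟩ := (ed_eq_iff w w' l l').1 hl'
      · rw [h] at hw'; exact absurd hw' hwA
      · by_contra hne
        have hx1 := z2_ne hne
        have hnv : nb w l ≠ v := by rintro h'; rw [h, h'] at hw'; exact hAv hw'
        have hstep : AdjC (cut x v) w' w := by
          refine adjC_symm ⟨l, h, ?_⟩
          rw [cut_ne hwv hnv]; exact hx1
        apply hwA
        rcases hw' with hw' | hw'
        · exact Or.inl (Relation.ReflTransGen.tail hw' hstep)
        · exact Or.inr (Relation.ReflTransGen.tail hw' hstep)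
    · rfl
  have hnotc : ∀ w, Conn (cut x v) (nb v 2) w → w ∉ A := by
    intro w hw hwA
    rcases hwA with h | h
    · exact hn 0 2 (by decide) (conn_trans h (conn_symm hw))
    · exact hn 1 2 (by decide) (conn_trans h (conn_symm hw))
  have hb0 : ¬ Conn (cut x v) (nb v 0) (M.u b) := by
    intro h; exact hn 0 1 (by decide) (conn_trans h (conn_symm hb))
  have ha1 : ¬ Conn (cut x v) (nb v 1) (M.u a) := by
    intro h; exact hn 0 1 (by decide) (conn_trans ha (conn_symm h))
  have hcA : M.u c ∉ A := hnotc _ hc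
  have haA : M.u a ∈ A := Or.inl ha
  have hbA : M.u b ∈ A := Or.inr hb
  have hdvP : ∀ w, dv P w = ind {M.u b} w + ind {M.u a} w := by
    intro w
    by_cases hwv : w = v
    · subst hwv
      unfold dv
      rw [hPv0, hPv1, hPv, ind_ne (hv b), ind_ne (hv a)]
      decide
    · by_cases hwA : w ∈ A
      · have : dv P w = dv x w := by
          unfold dv; rw [hPA w hwA, hPA w hwA, hPA w hwA]
        rw [this, hx.dv w, ind_ne hwv, zero_add]
        have hwc : w ≠ M.u c := by rintro rfl; exact hcA hwA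
        have h3 : ∀ (f : Fin 3 → ZMod 2), f c = 0 → f 0 + f 1 + f 2 = f b + f a := by
          intro f hf
          rcases fperm a b c hba hca hcb with ⟨rfl, rfl, rfl⟩ | ⟨rfl, rfl, rfl⟩ | ⟨rfl, rfl, rfl⟩ <;> rw [hf] <;> ring
        exact h3 (fun j => ind {M.u j} w) (ind_ne hwc)
      · have hwa : w ≠ M.u a := by rintro rfl; exact hwA haA
        have hwb : w ≠ M.u b := by rintro rfl; exact hwA hbA
        unfold dv
        rw [hPoff w hwv hwA, hPoff w hwv hwA, hPoff w hwv hwA, ind_ne hwa, ind_ne hwb]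
        simp
  obtain ⟨s, hs, hbd⟩ := hD1 U hU (fun e => P e + C e) (by
    intro e he
    by_contra hne
    have h1' : C e = 0 := by
      by_contra hh; exact hne (isB_inE (hCB e hh))
    have h2' : P e = 0 := by
      simp only [hPdef]
      split_ifs
      · by_contra hh; exact hne (hx.supp e hh)
      · rfl
    exact he (by rw [h1', h2', add_zero])) (by
    intro w
    have h5 : dv (fun e => P e + C e) w = dv P w + dv C w := by unfold dv; ring
    rw [h5, hdvP, hdvC]
    exact CharTwo.add_self_eq_zero _)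
  have hxE : ∀ e, x e = 1 → inE U e := fun e he => hx.supp e (by rw [he]; simp)
  -- marks
  have hCe : ∀ j, ∀ K, ed (M.u j) (K + 1) ∈ M.C j → j ≠ b → C (ed (M.u j) (K + 1)) = 0 := by
    intro j K hK hjb
    rw [hCdef, ind_coe0]
    exact Finset.disjoint_left.1 (M.disj j b hjb) hK
  have hdeg : ∀ w, w ≠ v → ∀ i j, i ≠ j → x (ed w i) = 1 → x (ed w j) = 1 → ∀ l, l ≠ i → l ≠ j →
      x (ed w l) = 0 := by
    intro w hw i j hij hi hj l hli hlj
    obtain ⟨q, hq⟩ := ref_deg2 hx hw
    rcases fin3_third hij hli.symm hlj.symm q with rfl | rfl | rfl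
    · rw [hi] at hq; simp at hq
    · rw [hj] at hq; simp at hq
    · exact hq
  -- first leg
  have hleg : Lc U s C v 0 = 0 := by
    obtain ⟨k', ⟨hQ, hQx⟩, -⟩ := walk (Q := fun w k => Lc U s C w k = Lc U s C v 0 ∧ x (ed w k) = 1)
      (y := cut x v) (cut_finite (ref_finite hx) v) (v := v) (u := M.u a) (k := 0)
      ⟨rfl, h1 0⟩ (cut_self _ _ _) ha (by
        rintro w hw hwa i j hij ⟨hQ, hQe⟩ hyj
        rw [Lc_nb] at hQ
        rw [ed_nb] at hQe
        have hxj := cut_le hyj
        have hwb : w ≠ M.u b := by rintro rfl; exact hb0 hw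
        have hwv : w ≠ v := by rintro rfl; exact hAv (Or.inl hw)
        refine ⟨?_, hxj⟩
        rw [← hQ]
        symm
        apply conserve hs hCB (fun e => hbd e) hij
        · rw [hdvC, ind_ne hwa, ind_ne hwb]; simp
        · intro l hl1 hl2 _
          rw [hPA w (Or.inl hw)]
          exact hdeg w hwv i j hij hQe hxj l hl1 hl2
        · exact hxE _ hQe
        · exact hxE _ hxj)
    rw [Lc_nb] at hQ
    rw [ed_nb] at hQx
    rw [← hQ]
    obtain ⟨K, hK1, hK2, hK3, hK4, hK5⟩ := mark_slot M a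
    have hplus := hCe a K hK4 hab
    rcases fin3_cases K k' with rfl | rfl | rfl
    · exact absurd (hxE _ hQx) hK5
    · unfold Rc
      rw [f11, if_neg hK3]
      exact hplus
    · have hlr := LR hs hCB (fun e => hbd e) (hxE _ hQx)
      have hL : Lc U s C (M.u a) (K + 2) = C (ed (M.u a) (K + 2)) := by
        unfold Lc; rw [f22, if_neg hK2]
      have hC2 : C (ed (M.u a) (K + 2)) = 1 := by
        have h6 := hdvC (M.u a)
        rw [ind_self, ind_ne (fun h => hab (M.inj h)), dv_third _ _ K, hplus] at h6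
        have h7 : C (ed (M.u a) K) = 0 := by
          by_contra hh; exact hK5 (isB_inE (hCB _ hh))
        rw [h7] at h6; simpa using h6
      rw [hL, hC2, hPA _ haA, hQx] at hlr
      have := zadd hlr
      rw [this]; decide
  -- the colour at the beginning of the third leg
  have hR0 : Rc U s C v 0 = 1 := by
    have := LR hs hCB (fun e => hbd e) (hve 0)
    rw [hleg, hPv0, zero_add] at this
    exact this
  have hdvv : dv C v = 0 := by
    rw [hdvC, ind_ne (hv b), ind_ne (hv a)]; simp
  have hL2 : Lc U s C v 2 = 1 := by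
    have := turn (s := s) hCB (k := 0) hdvv (hve 0) (hve _)
    rw [hR0] at this
    exact this.symm
  have hR2 : Rc U s C v 2 = 1 := by
    have := LR hs hCB (fun e => hbd e) (hve 2)
    rw [hL2, hPv] at this
    have := zadd this
    rw [this]; decide
  -- the third leg
  have hcol : ∀ w, Conn (cut x v) (nb v 2) w → ∀ k, inE U (ed w k) →
      Lc U s C w k = 1 ∧ Rc U s C w k = 1 := by
    -- one edge determines the others
    have hloc : ∀ w, Conn (cut x v) (nb v 2) w → ∀ k0, inE U (ed w k0) → Lc U s C w k0 = 1 →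
        ∀ k, inE U (ed w k) → Lc U s C w k = 1 ∧ Rc U s C w k = 1 := by
      intro w hw k0 hk0 hL k hk
      have hwA := hnotc w hw
      have hwv : w ≠ v := by
        rintro rfl
        exact nb_ne _ _ (conn_cut_self (conn_symm hw))
      have hwa : w ≠ M.u a := by rintro rfl; exact hwA haA
      have hwb : w ≠ M.u b := by rintro rfl; exact hwA hbA
      have hdw : dv C w = 0 := by rw [hdvC, ind_ne hwa, ind_ne hwb]; simp
      have hP0 := hPoff w hwv hwA
      have hLR : ∀ l, inE U (ed w l) → Lc U s C w l = 1 → Rc U s C w l = 1 := by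
        intro l hl h
        have := LR hs hCB (fun e => hbd e) hl
        rw [h, hP0] at this
        have := zadd this
        rw [this]; decide
      by_cases hkk : k0 = k
      · subst hkk
        exact ⟨hL, hLR _ hk hL⟩
      · have h7 := conserve hs hCB (fun e => hbd e) hkk hdw (fun l _ _ _ => hP0 l) hk0 hk
        have h8 : Lc U s C w k = 1 := by rw [← h7]; exact hLR _ hk0 hL
        exact ⟨h8, hLR _ hk h8⟩
    intro w hw
    induction hw with
    | refl =>
      apply hloc _ .refl 2
      · rw [ed_nb]; exact hve 2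
      · rw [Lc_nb]; exact hR2
    | @tail w1 w2 h2 h3 ih =>
      have h4 : Conn (cut x v) (nb v 2) w2 := Relation.ReflTransGen.tail h2 h3
      obtain ⟨l, rfl, hl⟩ := h3
      have hin : inE U (ed w1 l) := hxE _ (cut_le hl)
      apply hloc _ h4 l
      · rw [ed_nb]; exact hin
      · rw [Lc_nb]; exact (ih l hin).2
  -- the end of the third leg
  obtain ⟨K, hK1, hK2, hK3, hK4, hK5⟩ := mark_slot M c
  have hplus := hCe c K hK4 hcb
  have hinK : inE U (ed (M.u c) (K + 1)) := (isB_inE ((M.mem _).2 ⟨c, hK4⟩))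
  obtain ⟨hLK, hRK⟩ := hcol _ hc (K + 1) hinK
  unfold Rc at hRK
  rw [f11, if_neg hK3, hplus] at hRK
  simp at hRK

end pl

end Pool.Agent.H29.UC
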