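import Pool.Agent.H29.UC.Gr

set_option autoImplicit false

/-! The strand structure at a vertex with three edges (helper29). -/

namespace Pool.Agent.H29.UC
open Pool.Agent.H7.UC

theorem inE_ed {U : Finset Fc} {w : Vx} {k : Fin 3} :
    inE U (ed w k) ↔ fc w (k + 1) ∈ U ∨ fc w (k + 2) ∈ U := by
  unfold inE
  rcases faces_ed w k with ⟨_, h1, h2⟩ | ⟨_, h1, h2⟩
  · rw [h1, h2]
  · rw [h1, h2, or_comm]

theorem isB_ed {U : Finset Fc} {w : Vx} {k : Fin 3} :
    isB U (ed w k) ↔ (fc w (k + 1) ∈ U ∧ fc w (k + 2) ∉ U) ∨ (fc w (k + 1) ∉ U ∧ fc w (k + 2) ∈ U) := by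
  unfold isB
  rcases faces_ed w k with ⟨_, h1, h2⟩ | ⟨_, h1, h2⟩
  · rw [h1, h2]
  · rw [h1, h2]; tauto

theorem isB_inE {U : Finset Fc} {e : Ed} (h : isB U e) : inE U e := by
  unfold isB at h; unfold inE; tauto

theorem inE_finite (U : Finset Fc) : {e | inE U e}.Finite := by
  have h1 : {e : Ed | inE U e} ⊆ ⋃ k : Fin 3, ((fun e : Ed => (lf e, e.2.2)) ⁻¹' (↑(U ×ˢ {k}) : Set (Fc × Fin 3)) ∪
      (fun e : Ed => (rf e, e.2.2)) ⁻¹' (↑(U ×ˢ {k}) : Set (Fc × Fin 3))) := by
    rintro ⟨i, j, k⟩ h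
    rw [Set.mem_iUnion]
    refine ⟨k, ?_⟩
    rcases h with h | h
    · left; simp only [Set.mem_preimage, Finset.coe_product, Finset.coe_singleton, Set.mem_prod,
        Finset.mem_coe, Set.mem_singleton_iff]; exact ⟨h, trivial⟩
    · right; simp only [Set.mem_preimage, Finset.coe_product, Finset.coe_singleton, Set.mem_prod,
        Finset.mem_coe, Set.mem_singleton_iff]; exact ⟨h, trivial⟩
  apply Set.Finite.subset _ h1
  apply Set.finite_iUnion
  intro k
  apply Set.Finite.union
  · apply Set.Finite.preimage _ (Finset.finite_toSet _)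
    rintro ⟨i, j, l⟩ _ ⟨i', j', l'⟩ _ h
    simp only [Prod.mk.injEq] at h
    obtain ⟨h1, rfl⟩ := h
    fin_cases l <;> simp [lf, fc] at h1 <;> obtain ⟨rfl, rfl⟩ := h1 <;> rfl
  · apply Set.Finite.preimage _ (Finset.finite_toSet _)
    rintro ⟨i, j, l⟩ _ ⟨i', j', l'⟩ _ h
    simp only [Prod.mk.injEq] at h
    obtain ⟨h1, rfl⟩ := h
    fin_cases l <;> simp [rf, fc] at h1 <;> obtain ⟨rfl, rfl⟩ := h1 <;> rfl

variable {U : Finset Fc}

theorem ref_finite {M : Marks U 3} {v : Vx} {x : Ed → ZMod 2} (hx : IsRef M v x) :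
    {e | x e ≠ 0}.Finite :=
  (inE_finite U).subset fun _ he => hx.supp _ he

theorem ind_self {α : Type*} (a : α) : ind ({a} : Set α) a = 1 := by
  unfold ind; simp

theorem ind_ne {α : Type*} {a b : α} (h : b ≠ a) : ind ({a} : Set α) b = 0 := by
  unfold ind; simp [h]

/-- the three slots -/
theorem fin3_cases (K k : Fin 3) : k = K ∨ k = K + 1 ∨ k = K + 2 := by
  revert K k; decide

theorem add1_ne (k : Fin 3) : k + 1 ≠ k := by revert k; decide
theorem add2_ne (k : Fin 3) : k + 2 ≠ k := by revert k; decide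
theorem add12_ne (k : Fin 3) : k + 1 ≠ k + 2 := by revert k; decide

/-- the outward edge at a mark is not an edge of `U` -/
theorem mark_slot {n : ℕ} [NeZero n] (M : Marks U n) (j : Fin n) : ∃ K, fc (M.u j) K ∈ U ∧ fc (M.u j) (K + 1) ∉ U ∧
    fc (M.u j) (K + 2) ∉ U ∧ ed (M.u j) (K + 1) ∈ M.C j ∧ ¬ inE U (ed (M.u j) K) := by
  obtain ⟨K, h1, h2, h3, h4⟩ := M.out j
  refine ⟨K, h1, h2, h3, h4, ?_⟩
  rw [inE_ed]; tauto

theorem dv_third (x : Ed → ZMod 2) (v : Vx) (K : Fin 3) :
    dv x v = x (ed v K) + x (ed v (K + 1)) + x (ed v (K + 2)) := by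
  unfold dv
  fin_cases K <;> simp <;> ring

/-- at a vertex other than `v` one of the edges is not in `x` -/
theorem ref_deg2 {M : Marks U 3} {v : Vx} {x : Ed → ZMod 2} (hx : IsRef M v x) {w : Vx}
    (hw : w ≠ v) : ∃ k, x (ed w k) = 0 := by
  by_cases hm : ∃ j, w = M.u j
  · obtain ⟨j, rfl⟩ := hm
    obtain ⟨K, _, _, _, _, hK⟩ := mark_slot M j
    refine ⟨K, ?_⟩
    by_contra h
    exact hK (hx.supp _ h)
  · push Not at hm
    by_contra hc
    push Not at hc
    have h := hx.dv w
    rw [ind_ne hw, ind_ne (hm 0), ind_ne (hm 1), ind_ne (hm 2)] at h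
    unfold dv at h
    rw [z2_ne (hc 0), z2_ne (hc 1), z2_ne (hc 2)] at h
    revert h; decide

theorem ind_marks {M : Marks U 3} (j : Fin 3) :
    ind ({M.u 0} : Set Vx) (M.u j) + ind {M.u 1} (M.u j) + ind {M.u 2} (M.u j) = 1 := by
  have h : ∀ i, i ≠ j → ind ({M.u i} : Set Vx) (M.u j) = 0 := fun i hi =>
    ind_ne (fun h => hi (M.inj h.symm))
  fin_cases j
  · rw [h 1 (by decide), h 2 (by decide)]; simp [ind_self]
  · rw [h 0 (by decide), h 2 (by decide)]; simp [ind_self]
  · rw [h 0 (by decide), h 1 (by decide)]; simp [ind_self]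

/-- a mark has degree one -/
theorem ref_mark {M : Marks U 3} {v : Vx} {x : Ed → ZMod 2} (hx : IsRef M v x) {j : Fin 3}
    (hj : M.u j ≠ v) (k l : Fin 3) (hk : x (ed (M.u j) k) = 1) (hl : x (ed (M.u j) l) = 1) :
    k = l := by
  obtain ⟨K, _, _, _, _, hK⟩ := mark_slot M j
  have h0 : x (ed (M.u j) K) = 0 := by
    by_contra h
    exact hK (hx.supp _ h)
  have h := hx.dv (M.u j)
  rw [ind_ne hj, zero_add, ind_marks j, dv_third x _ K, h0, zero_add] at h
  have hkK : k ≠ K := by rintro rfl; rw [h0] at hk; simp at hk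
  have hlK : l ≠ K := by rintro rfl; rw [h0] at hl; simp at hl
  rcases fin3_cases K k with rfl | rfl | rfl
  · exact absurd rfl hkK
  · rcases fin3_cases K l with rfl | rfl | rfl
    · exact absurd rfl hlK
    · rfl
    · rw [hk, hl] at h; exact absurd h (by decide)
  · rcases fin3_cases K l with rfl | rfl | rfl
    · exact absurd rfl hlK
    · rw [hk, hl] at h; exact absurd h (by decide)
    · rfl

/-- the vertex `v` : one or three edges -/
theorem ref_v {M : Marks U 3} {v : Vx} {x : Ed → ZMod 2} (hx : IsRef M v x)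
    (hv : ∀ j, v ≠ M.u j) :
    (∃ k0, x (ed v k0) = 1 ∧ ∀ k, k ≠ k0 → x (ed v k) = 0) ∨ (∀ k, x (ed v k) = 1) := by
  have h := hx.dv v
  rw [ind_self, ind_ne (hv 0), ind_ne (hv 1), ind_ne (hv 2)] at h
  unfold dv at h
  rcases z2 (x (ed v 0)) with h0 | h0 <;> rcases z2 (x (ed v 1)) with h1 | h1 <;>
    rcases z2 (x (ed v 2)) with h2 | h2 <;> rw [h0, h1, h2] at h <;>
    try (exfalso; revert h; decide)
  · left; refine ⟨2, h2, ?_⟩; intro k hk; fin_cases k <;> simp_all
  · left; refine ⟨1, h1, ?_⟩; intro k hk; fin_cases k <;> simp_all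
  · left; refine ⟨0, h0, ?_⟩; intro k hk; fin_cases k <;> simp_all
  · right; intro k; fin_cases k <;> assumption

theorem del_ne {x : Ed → ZMod 2} {e e' : Ed} (h : e' ≠ e) : del x e e' = x e' := by
  unfold del; rw [if_neg h]

theorem del_self (x : Ed → ZMod 2) (e : Ed) : del x e e = 0 := by
  unfold del; rw [if_pos rfl]

theorem del_le {x : Ed → ZMod 2} {e e' : Ed} (h : del x e e' = 1) : x e' = 1 := by
  unfold del at h; split_ifs at h
  · simp at h
  · exact h

theorem del_of_zero {x : Ed → ZMod 2} {e : Ed} (h : x e = 0) : del x e = x := by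
  funext e'
  by_cases h' : e' = e
  · subst h'; rw [del_self, h]
  · exact del_ne h'

theorem ed_ne {v : Vx} {k l : Fin 3} (h : k ≠ l) : ed v k ≠ ed v l := by
  intro h'
  exact h ((ed_eq_iff v v k l).1 h').1

theorem cut_del (x : Ed → ZMod 2) (v : Vx) (k : Fin 3) : cut (del x (ed v k)) v = cut x v := by
  funext e
  unfold cut
  split_ifs with h
  · rfl
  · exact del_ne (fun h' => h ⟨k, h'⟩)

/-- degree one: the three strands coincide -/
theorem sconn_one {x : Ed → ZMod 2} {v u : Vx} (hu : u ≠ v) {k0 : Fin 3}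
    (h1 : x (ed v k0) = 1) (h0 : ∀ k, k ≠ k0 → x (ed v k) = 0) (k : Fin 3) :
    SConn x v k u ↔ Conn (cut x v) (nb v k0) u := by
  unfold SConn
  by_cases hk : k = k0
  · subst hk
    constructor
    · rintro (⟨_, h⟩ | ⟨h, _⟩)
      · have hc : del x (ed v k) = cut x v := by
          funext e
          by_cases he : ∃ l, e = ed v l
          · obtain ⟨l, rfl⟩ := he
            rw [cut_self]
            by_cases hl : l = k
            · subst hl; exact del_self _ _
            · rw [del_ne (ed_ne hl)]; exact h0 l hl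
          · rw [del_ne (fun h => he ⟨k, h⟩)]
            unfold cut; rw [if_neg he]
        rwa [hc] at h
      · rw [h] at h1; simp at h1
    · intro h
      left
      refine ⟨h1, conn_mono ?_ h⟩
      intro e he
      by_cases hee : e = ed v k
      · subst hee; rw [cut_self] at he; simp at he
      · rw [del_ne hee]; exact cut_le he
  · rw [h0 k hk, del_of_zero (h0 k hk)]
    constructor
    · rintro (⟨h, _⟩ | ⟨_, h⟩)
      · simp at h
      · obtain ⟨l, hl, hc⟩ := (conn_iff_out hu).1 h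
        have : l = k0 := by
          by_contra hh; rw [h0 l hh] at hl; simp at hl
        subst this; exact hc
    · intro h
      right
      exact ⟨rfl, (conn_iff_out hu).2 ⟨k0, h1, h⟩⟩

/-- degree three: the strand behind the edge `k` -/
theorem sconn_three {x : Ed → ZMod 2} {v u : Vx} (hu : u ≠ v) (h1 : ∀ k, x (ed v k) = 1)
    (k : Fin 3) : SConn x v k u ↔ Conn (cut x v) (nb v k) u ∨
      ((∃ l, l ≠ k ∧ Conn (cut x v) (nb v k) (nb v l)) ∧
        ∃ m, m ≠ k ∧ Conn (cut x v) (nb v m) u) := by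
  have hS : SConn x v k u ↔ Conn (del x (ed v k)) (nb v k) u := by
    unfold SConn
    rw [h1 k]; simp
  rw [hS]
  have hd : ∀ m, del x (ed v k) (ed v m) = 1 ↔ m ≠ k := by
    intro m
    by_cases h : m = k
    · subst h; rw [del_self]; simp
    · rw [del_ne (ed_ne h)]; simp [h, h1]
  have hmono : ∀ e, cut x v e = 1 → del x (ed v k) e = 1 := by
    intro e he
    rw [← cut_del x v k] at he
    exact cut_le he
  constructor
  · intro h
    rcases conn_out hu h with h | ⟨h, m, hm, hmu⟩
    · left; rwa [cut_del] at h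
    · right
      rw [cut_del] at hmu
      refine ⟨?_, m, (hd m).1 hm, hmu⟩
      obtain ⟨l, hl, hc⟩ := (conn_iff_out (nb_ne v k)).1 (conn_symm h)
      rw [cut_del] at hc
      exact ⟨l, (hd l).1 hl, conn_symm hc⟩
  · rintro (h | ⟨⟨l, hl, hkl⟩, m, hm, hmu⟩)
    · exact conn_mono hmono h
    · have e1 : Conn (del x (ed v k)) (nb v k) (nb v l) := conn_mono hmono hkl
      have e2 : Conn (del x (ed v k)) (nb v l) v :=
        conn_symm (Relation.ReflTransGen.single ⟨l, rfl, (hd l).2 hl⟩)
      have e3 : Conn (del x (ed v k)) v (nb v m) :=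
        Relation.ReflTransGen.single ⟨m, rfl, (hd m).2 hm⟩
      exact conn_trans (conn_trans (conn_trans e1 e2) e3) (conn_mono hmono hmu)

section three

variable {M : Marks U 3} {v : Vx} {x : Ed → ZMod 2}

theorem cut_deg2 (hx : IsRef M v x) (w : Vx) : ∃ k, cut x v (ed w k) = 0 := by
  by_cases hw : w = v
  · subst hw; exact ⟨0, cut_self _ _ _⟩
  · obtain ⟨k, hk⟩ := ref_deg2 hx hw
    refine ⟨k, ?_⟩
    by_contra h
    exact cut_ne_zero h hk

/-- the neighbours of `v` have degree at most one -/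
theorem cut_nb_deg (hx : IsRef M v x) (h1 : ∀ k, x (ed v k) = 1) (k l m : Fin 3)
    (hl : cut x v (ed (nb v k) l) = 1) (hm : cut x v (ed (nb v k) m) = 1) : l = m := by
  by_contra hlm
  have hlk : k ≠ l := by rintro rfl; rw [cut_nb] at hl; simp at hl
  have hmk : k ≠ m := by rintro rfl; rw [cut_nb] at hm; simp at hm
  obtain ⟨q, hq⟩ := ref_deg2 hx (nb_ne v k)
  rcases fin3_third hlk hmk hlm q with rfl | rfl | rfl
  · rw [ed_nb, h1] at hq; simp at hq
  · rw [cut_le hl] at hq; simp at hq
  · rw [cut_le hm] at hq; simp at hq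

/-- a leg which ends immediately -/
theorem cut_mark_isol (hx : IsRef M v x) (hv : ∀ j, v ≠ M.u j) (h1 : ∀ k, x (ed v k) = 1)
    {k j : Fin 3} (h : nb v k = M.u j) (l : Fin 3) : cut x v (ed (nb v k) l) = 0 := by
  by_contra hh
  have h5 := cut_le (z2_ne hh)
  have h6 : x (ed (nb v k) k) = 1 := by rw [ed_nb]; exact h1 k
  rw [h] at h5 h6
  have := ref_mark hx (hv j).symm _ _ h5 h6
  subst this
  exact hh (cut_nb _ _ _)

/-- two joined legs do not meet a mark -/
theorem joined_no_mark (hx : IsRef M v x) (hv : ∀ j, v ≠ M.u j) (h1 : ∀ k, x (ed v k) = 1)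
    {a b : Fin 3} (hab : a ≠ b) (h : Conn (cut x v) (nb v a) (nb v b)) (j : Fin 3) :
    ¬ Conn (cut x v) (nb v a) (M.u j) := by
  intro hj
  have hm : ∀ k l, cut x v (ed (M.u j) k) = 1 → cut x v (ed (M.u j) l) = 1 → k = l :=
    fun k l hk hl => ref_mark hx (hv j).symm _ _ (cut_le hk) (cut_le hl)
  have hne : nb v a ≠ nb v b := fun h => hab ((nb_inj v a b).1 h)
  rcases ends3 (cut_finite (ref_finite hx) v) (cut_deg2 hx) (cut_nb_deg hx h1 a)
    (cut_nb_deg hx h1 b) hm h hj with h2 | h2 | h2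
  · exact hne h2
  · exact hne (conn_isol (cut_mark_isol hx hv h1 h2) h).symm
  · exact hne (conn_isol (cut_mark_isol hx hv h1 h2) (conn_symm h))

/-- if two legs are joined then all strands end at the end of the third leg -/
theorem sconn_joined (hx : IsRef M v x) (hv : ∀ j, v ≠ M.u j) (h1 : ∀ k, x (ed v k) = 1)
    {a b c : Fin 3} (hab : a ≠ b) (hac : a ≠ c) (hbc : b ≠ c)
    (h : Conn (cut x v) (nb v a) (nb v b)) (k j : Fin 3) :
    SConn x v k (M.u j) ↔ Conn (cut x v) (nb v c) (M.u j) := by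
  rw [sconn_three (hv j).symm h1]
  have na := joined_no_mark hx hv h1 hab h j
  have nb' := joined_no_mark hx hv h1 hab.symm (conn_symm h) j
  have hcase := fin3_third hab hac hbc
  constructor
  · rintro (h' | ⟨_, m, _, hm⟩)
    · rcases hcase k with rfl | rfl | rfl
      · exact absurd h' na
      · exact absurd h' nb'
      · exact h'
    · rcases hcase m with rfl | rfl | rfl
      · exact absurd hm na
      · exact absurd hm nb'
      · exact hm
  · intro h'
    rcases hcase k with rfl | rfl | rfl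
    · exact Or.inr ⟨⟨b, hab.symm, h⟩, c, hac.symm, h'⟩
    · exact Or.inr ⟨⟨a, hab, conn_symm h⟩, c, hbc.symm, h'⟩
    · exact Or.inl h'

/-- if no two legs are joined then the leg `k` ends at a mark -/
theorem leg_end (hx : IsRef M v x) (hv : ∀ j, v ≠ M.u j) (h1 : ∀ k, x (ed v k) = 1)
    (hn : ∀ a b, a ≠ b → ¬ Conn (cut x v) (nb v a) (nb v b)) (k : Fin 3) :
    ∃ j, Conn (cut x v) (nb v k) (M.u j) := by
  classical
  by_contra hc
  push Not at hc
  have hfin := conn_finite (cut_finite (ref_finite hx) v) (nb v k)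
  have hs := sum_dv (y := cut x v) hfin.toFinset (by
    intro w hw l hl
    rw [Set.Finite.mem_toFinset] at hw ⊢
    exact Relation.ReflTransGen.tail hw ⟨l, rfl, hl⟩)
  -- all vertices other than `nb v k` have even degree
  have hval : ∀ w ∈ hfin.toFinset, dv (cut x v) w = if w = nb v k then 1 else 0 := by
    intro w hw
    rw [Set.Finite.mem_toFinset] at hw
    have hwv : w ≠ v := by
      rintro rfl
      have := conn_cut_self (conn_symm hw)
      exact nb_ne _ _ this
    have hxw := hx.dv w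
    have hwm : ∀ j, w ≠ M.u j := by
      rintro j rfl; exact hc j hw
    rw [ind_ne hwv, ind_ne (hwm 0), ind_ne (hwm 1), ind_ne (hwm 2)] at hxw
    split_ifs with hwk
    · subst hwk
      have h2 : dv (cut x v) (nb v k) = dv x (nb v k) + 1 := by
        rw [dv_third _ _ k, dv_third _ _ k, cut_nb]
        have hne : ∀ l, l ≠ k → nb (nb v k) l ≠ v := by
          intro l hl h
          have : nb (nb v k) l = nb (nb v k) k := by rw [h, nb_nb]
          exact hl ((nb_inj _ _ _).1 this)
        rw [cut_ne (nb_ne v k) (hne (k + 1) (add1_ne k)),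
          cut_ne (nb_ne v k) (hne (k + 2) (add2_ne k))]
        have : x (ed (nb v k) k) = 1 := by rw [ed_nb]; exact h1 k
        rw [this]
        generalize x (ed (nb v k) (k + 1)) = p
        generalize x (ed (nb v k) (k + 2)) = q
        revert p q; decide
      rw [h2, hxw]; simp
    · have h3 : ∀ l, nb w l ≠ v := by
        intro l hl
        have : w = nb v l := by rw [← hl, nb_nb]
        have hlk : l ≠ k := by rintro rfl; exact hwk this
        rw [this] at hw
        exact hn k l hlk.symm hw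
      have : dv (cut x v) w = dv x w := by
        unfold dv
        rw [cut_ne hwv (h3 0), cut_ne hwv (h3 1), cut_ne hwv (h3 2)]
      rw [this, hxw]; simp
  rw [Finset.sum_congr rfl hval, Finset.sum_ite_eq' hfin.toFinset (nb v k) (fun _ => (1 : ZMod 2)),
    if_pos (by rw [Set.Finite.mem_toFinset]; exact Relation.ReflTransGen.refl)] at hs
  simp at hs

/-- if no two legs are joined then the legs end at different marks -/
theorem legs (hx : IsRef M v x) (hv : ∀ j, v ≠ M.u j) (h1 : ∀ k, x (ed v k) = 1)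
    (hn : ∀ a b, a ≠ b → ¬ Conn (cut x v) (nb v a) (nb v b)) :
    ∃ σ : Fin 3 → Fin 3, Function.Injective σ ∧ (∀ k j, Conn (cut x v) (nb v k) (M.u j) ↔ j = σ k) ∧
      ∀ k j, SConn x v k (M.u j) ↔ j = σ k := by
  choose σ hσ using leg_end hx hv h1 hn
  have hinj : Function.Injective σ := by
    intro a b hab
    by_contra hne
    have h := hσ b
    rw [← hab] at h
    exact hn a b hne (conn_trans (hσ a) (conn_symm h))
  have hbij : Function.Bijective σ := (Fintype.bijective_iff_injective_and_card σ).2 ⟨hinj, rfl⟩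
  have hc : ∀ k j, Conn (cut x v) (nb v k) (M.u j) ↔ j = σ k := by
    intro k j
    constructor
    · intro h
      obtain ⟨l, rfl⟩ := hbij.2 j
      by_cases hkl : k = l
      · rw [hkl]
      · exact absurd (conn_trans h (conn_symm (hσ l))) (hn k l hkl)
    · rintro rfl; exact hσ k
  refine ⟨σ, hinj, hc, ?_⟩
  intro k j
  rw [sconn_three (hv j).symm h1, ← hc k j]
  constructor
  · rintro (h | ⟨⟨l, hl, h⟩, _⟩)
    · exact h
    · exact absurd h (hn k l hl.symm)
  · exact Or.inl

end three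

end Pool.Agent.H29.UC
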